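import Pool.Agent.H86.Codeg.Poly
import Pool.Agent.H974R3.RankEmb

set_option autoImplicit false
set_option linter.unusedSectionVars false

/-!
# Twin-free graphs of small rank with few codegrees
-/

namespace Pool.Agent.H86.Codeg

open Finset Module Matrix
open Pool.Agent.H974R3.RC (RW row_mem co_row_mem finrank_RW)

variable {V : Type} [Fintype V] [DecidableEq V]

variable (G : SimpleGraph V) [DecidableRel G.Adj]

lemma ker_row (Q : Matrix V V ℝ) (x y : V) :
    (G.adjMatrix ℝ * Q * G.adjMatrix ℝ) x y =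
      ∑ v, (G.adjMatrix ℝ * Q) x v * G.adjMatrix ℝ v y := by
  rw [Matrix.mul_apply]

lemma ker_mem (Q : Matrix V V ℝ) (x : V) :
    (fun y => (G.adjMatrix ℝ * Q * G.adjMatrix ℝ) x y) ∈ RW G := by
  have : (fun y => (G.adjMatrix ℝ * Q * G.adjMatrix ℝ) x y) =
      ∑ v, (G.adjMatrix ℝ * Q) x v • (G.adjMatrix ℝ v) := by
    ext y
    rw [ker_row, Finset.sum_apply]
    rfl
  rw [this]
  exact Submodule.sum_mem _ fun v _ => Submodule.smul_mem _ _ (row_mem G v)

lemma one_mem_RW : (1 : V → ℝ) ∈ RW G :=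
  Submodule.mem_sup_right (Submodule.mem_span_singleton_self _)

lemma ker_form (Q : Matrix V V ℝ) (x y : V) :
    (G.adjMatrix ℝ * Q * G.adjMatrix ℝ) x y = G.adjMatrix ℝ x ⬝ᵥ (Q *ᵥ G.adjMatrix ℝ y) := by
  rw [Matrix.mul_assoc, Matrix.mul_apply]
  simp only [dotProduct]
  apply sum_congr rfl
  intro v _
  congr 1
  rw [Matrix.mul_apply]
  simp only [mulVec, dotProduct]
  apply sum_congr rfl
  intro w _
  rw [(G.isSymm_adjMatrix (α := ℝ)).apply]

lemma form_symm {Q : Matrix V V ℝ} (hQ : Q.IsSymm) (a b : V → ℝ) :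
    a ⬝ᵥ (Q *ᵥ b) = b ⬝ᵥ (Q *ᵥ a) := by
  rw [dotProduct_mulVec, ← mulVec_transpose, hQ.eq, dotProduct_comm]

lemma prod_mem_pow (U : Submodule ℝ (V → ℝ)) (s : Finset ℝ) (f : ℝ → (V → ℝ))
    (h : ∀ v ∈ s, f v ∈ U) : ∏ v ∈ s, f v ∈ U ^ s.card := by
  classical
  induction s using Finset.induction_on with
  | empty =>
    rw [prod_empty, card_empty, pow_zero]
    exact Submodule.one_le.1 le_rfl
  | insert a s ha ih =>
    rw [prod_insert ha, card_insert_of_notMem ha, pow_succ']
    exact Submodule.mul_mem_mul (h a (mem_insert_self _ _))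
      (ih fun v hv => h v (mem_insert_of_mem hv))

/-- **The bound.** -/
theorem main (htw : ∀ u v : V, (∀ x, G.Adj u x ↔ G.Adj v x) → u = v)
    (Q : Matrix V V ℝ) (hQ : Q.PosDef) (D : Finset ℝ) (t : ℕ)
    (hD : ∀ x : V, {y | y ≠ x ∧ ¬ G.Adj x y ∧
      (G.adjMatrix ℝ * Q * G.adjMatrix ℝ) x y ∉ D}.ncard ≤ t) :
    Fintype.card V ≤ (t + 1) * ((G.adjMatrix ℝ).rank + D.card + 1).choose (D.card + 1) := by
  classical
  set K : Matrix V V ℝ := G.adjMatrix ℝ * Q * G.adjMatrix ℝ with hK
  have hQs : Q.IsSymm := by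
    have := hQ.1
    rw [Matrix.IsHermitian, conjTranspose_eq_transpose_of_trivial] at this
    exact this
  have hKs : ∀ x y, K x y = K y x := by
    intro x y
    rw [hK, ker_form, ker_form]
    exact form_symm hQs _ _
  have hstrict : ∀ x y, x ≠ y → K y y ≤ K x x → K x y < K x x := by
    intro x y hxy hle
    have hne : G.adjMatrix ℝ x - G.adjMatrix ℝ y ≠ 0 := by
      intro h
      apply hxy
      apply htw
      intro z
      have h1 := congrFun (sub_eq_zero.1 h) z
      simp only [SimpleGraph.adjMatrix_apply] at h1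
      by_cases h2 : G.Adj x z <;> by_cases h3 : G.Adj y z
      · exact ⟨fun _ => h3, fun _ => h2⟩
      · rw [if_pos h2, if_neg h3] at h1
        exact absurd h1 one_ne_zero
      · rw [if_neg h2, if_pos h3] at h1
        exact absurd h1.symm one_ne_zero
      · exact ⟨fun h => absurd h h2, fun h => absurd h h3⟩
    have h1 := hQ.dotProduct_mulVec_pos hne
    rw [star_trivial, mulVec_sub, sub_dotProduct, dotProduct_sub, dotProduct_sub] at h1
    have e1 := ker_form G Q x x
    have e2 := ker_form G Q x y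
    have e3 := ker_form G Q y x
    have e4 := ker_form G Q y y
    rw [← hK] at e1 e2 e3 e4
    rw [← e1, ← e2, ← e3, ← e4] at h1
    have e5 := hKs x y
    linarith
  obtain ⟨S, hS, hcard⟩ := exists_free
    (fun x y => y ≠ x ∧ ¬ G.Adj x y ∧ K x y ∉ D)
    (fun x y h => ⟨h.1.symm, fun h' => h.2.1 h'.symm, by rw [hKs]; exact h.2.2⟩)
    (fun x h => h.1 rfl) t hD
  refine hcard.trans (Nat.mul_le_mul_left _ ?_)
  -- the functions
  set F : V → V → ℝ := fun x y =>
    (1 - G.adjMatrix ℝ x y) * ∏ v ∈ D.filter (fun v => v < K x x), (K x y - v) with hF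
  have hFmem : ∀ x, F x ∈ RW G ^ (D.card + 1) := by
    intro x
    have h1 : F x = (fun y => 1 - G.adjMatrix ℝ x y) *
        ∏ v ∈ D.filter (fun v => v < K x x), (fun y => K x y - v) := by
      ext y
      rw [hF]
      simp only [Pi.mul_apply, Finset.prod_apply]
    rw [h1, pow_succ', ]
    apply Submodule.mul_mem_mul (co_row_mem G x)
    have h2 : ∏ v ∈ D.filter (fun v => v < K x x), (fun y => K x y - v) ∈
        RW G ^ (D.filter (fun v => v < K x x)).card := by
      apply prod_mem_pow
      intro v _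
      have h3 : (fun y => K x y - v) = (fun y => K x y) - v • (1 : V → ℝ) := by
        ext y
        simp
      rw [h3]
      exact Submodule.sub_mem _ (ker_mem G Q x) (Submodule.smul_mem _ _ (one_mem_RW G))
    have h3 : (1 : Submodule ℝ (V → ℝ)) ≤ RW G := by
      rw [Submodule.one_le]
      exact one_mem_RW G
    exact pow_le_pow_right' h3 (card_filter_le _ _) h2
  have hb := card_le_of_triangular S (fun x => K x x) F (RW G ^ (D.card + 1))
    (fun x _ => hFmem x) (by
      intro x _
      rw [hF]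
      simp only [SimpleGraph.adjMatrix_apply, SimpleGraph.irrefl, if_false, sub_zero, one_mul]
      apply prod_ne_zero_iff.2
      intro v hv
      rw [mem_filter] at hv
      exact sub_ne_zero.2 hv.2.ne') (by
      intro x hx y hy hyx hle
      rw [hF]
      simp only
      by_cases hadj : G.Adj x y
      · rw [SimpleGraph.adjMatrix_apply, if_pos hadj]
        ring
      · have h1 : K x y ∈ D := by
          by_contra hcon
          exact hS x hx y hy ⟨hyx, hadj, hcon⟩
        have h2 : K x y < K x x := hstrict x y hyx.symm hle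
        rw [prod_eq_zero (i := K x y) (mem_filter.2 ⟨h1, h2⟩) (sub_self _), mul_zero])
  refine hb.trans ((finrank_pow_le (RW G) (G.adjMatrix ℝ).rank (finrank_RW G) (D.card + 1)).trans ?_)
  rw [← add_assoc]

end Pool.Agent.H86.Codeg
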