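import Mathlib

set_option autoImplicit false
set_option linter.unusedSectionVars false

/-!
# Products of functions from a space of small dimension
-/

namespace Pool.Agent.H86.Codeg

open Finset Module

variable {V : Type} [Fintype V]

/-- The products of `D` elements of a space of dimension at most `m + 1` span a space of dimension
at most `(m + D).choose D`. -/
theorem finrank_pow_le (U : Submodule ℝ (V → ℝ)) (m : ℕ) (hU : finrank ℝ U ≤ m + 1) (D : ℕ) :
    finrank ℝ (U ^ D : Submodule ℝ (V → ℝ)) ≤ (m + D).choose D := by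
  classical
  -- a spanning family indexed by `Fin (m + 1)`
  obtain ⟨u, hu⟩ : ∃ u : Fin (m + 1) → (V → ℝ), U ≤ Submodule.span ℝ (Set.range u) := by
    let b := Module.finBasis ℝ U
    refine ⟨fun i => if h : (i : ℕ) < finrank ℝ U then (b ⟨i, h⟩ : V → ℝ) else 0, ?_⟩
    intro x hx
    have h1 : (⟨x, hx⟩ : U) = ∑ i, b.repr ⟨x, hx⟩ i • b i := (b.sum_repr _).symm
    have h2 : x = ∑ i, b.repr ⟨x, hx⟩ i • (b i : V → ℝ) := by
      have := congrArg (Submodule.subtype U) h1
      rw [map_sum] at this
      simpa using this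
    rw [h2]
    apply Submodule.sum_mem
    intro i _
    apply Submodule.smul_mem
    apply Submodule.subset_span
    refine ⟨⟨i, lt_of_lt_of_le i.2 hU⟩, ?_⟩
    simp
  have h1 : (U ^ D : Submodule ℝ (V → ℝ)) ≤ Submodule.span ℝ (Set.range u) ^ D :=
    pow_le_pow_left' hu D
  have h2 : Submodule.span ℝ (Set.range u) ^ D ≤
      Submodule.span ℝ (Set.range (fun z : Sym (Fin (m + 1)) D => ((z : Multiset (Fin (m + 1))).map u).prod)) := by
    rw [Submodule.span_pow]
    apply Submodule.span_mono
    intro f hf
    rw [Set.mem_pow] at hf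
    obtain ⟨g, hg⟩ := hf
    have h3 : ∀ i, ∃ j, u j = (g i : V → ℝ) := fun i => (g i).2
    choose k hk using h3
    refine ⟨⟨Multiset.ofList (List.ofFn k), by simp⟩, ?_⟩
    simp only [Sym.coe_mk, Multiset.map_coe, Multiset.prod_coe]
    rw [← hg, List.map_ofFn]
    congr 2
    ext1 i
    exact hk i
  have h3 := Submodule.finrank_mono (h1.trans h2)
  refine h3.trans ?_
  have h4 := finrank_range_le_card (R := ℝ)
    (b := fun z : Sym (Fin (m + 1)) D => ((z : Multiset (Fin (m + 1))).map u).prod)
  refine (le_trans (le_of_eq rfl) h4).trans ?_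
  rw [Sym.card_sym_eq_multichoose, Fintype.card_fin, Nat.multichoose_eq]
  have : m + 1 + D - 1 = m + D := by omega
  rw [this]

/-- A triangular family of functions is linearly independent. -/
theorem card_le_of_triangular (S : Finset V) (w : V → ℝ) (F : V → V → ℝ)
    (W : Submodule ℝ (V → ℝ)) (hF : ∀ x ∈ S, F x ∈ W) (hd : ∀ x ∈ S, F x x ≠ 0)
    (h0 : ∀ x ∈ S, ∀ y ∈ S, y ≠ x → w y ≤ w x → F x y = 0) : S.card ≤ finrank ℝ W := by
  classical
  have hli : LinearIndependent ℝ (fun x : S => (⟨F x, hF x x.2⟩ : W)) := by
    rw [Fintype.linearIndependent_iff]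
    intro a ha
    by_contra hcon
    push Not at hcon
    obtain ⟨x1, hx1⟩ := hcon
    obtain ⟨x0, hx0, hmin⟩ := exists_min_image (univ.filter (fun x : S => a x ≠ 0))
      (fun x => w (x : V)) ⟨x1, by simpa using hx1⟩
    rw [mem_filter] at hx0
    have h1 : ∑ x : S, a x * F x x0 = 0 := by
      have h2 := congrArg (fun f : W => (f : V → ℝ) x0) ha
      simp only [Submodule.coe_sum, Submodule.coe_smul, Finset.sum_apply, Pi.smul_apply,
        smul_eq_mul, Submodule.coe_zero, Pi.zero_apply] at h2
      exact h2
    rw [sum_eq_single x0] at h1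
    · exact hx0.2 ((mul_eq_zero.1 h1).resolve_right (hd x0 x0.2))
    · intro x _ hx
      by_cases hax : a x = 0
      · rw [hax, zero_mul]
      · have h3 := hmin x (by simpa using hax)
        rw [h0 x x.2 x0 x0.2 (fun h => hx (Subtype.ext h.symm)) h3, mul_zero]
    · intro h
      exact absurd (mem_univ _) h
  have h1 := hli.fintype_card_le_finrank
  rwa [Fintype.card_coe] at h1

/-- A maximal set without exceptional pairs. -/
theorem exists_free (E : V → V → Prop) (hE : ∀ x y, E x y → E y x) (hirr : ∀ x, ¬ E x x)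
    (t : ℕ) (ht : ∀ x, {y | E x y}.ncard ≤ t) :
    ∃ S : Finset V, (∀ x ∈ S, ∀ y ∈ S, ¬ E x y) ∧ Fintype.card V ≤ (t + 1) * S.card := by
  classical
  obtain ⟨S, hS, hmax⟩ := exists_max_image
    ((univ : Finset (Finset V)).filter (fun S => ∀ x ∈ S, ∀ y ∈ S, ¬ E x y)) card
    ⟨∅, by simp⟩
  rw [mem_filter] at hS
  refine ⟨S, hS.2, ?_⟩
  have hcov : (univ : Finset V) ⊆ S.biUnion (fun x => insert x (univ.filter (fun y => E x y))) := by
    intro y _
    rw [mem_biUnion]
    by_cases hy : y ∈ S
    · exact ⟨y, hy, mem_insert_self _ _⟩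
    · by_contra hcon
      push Not at hcon
      have h1 : ∀ x ∈ S, ¬ E x y := by
        intro x hx hxy
        exact hcon x hx (mem_insert_of_mem (by simpa using hxy))
      have h2 := hmax (insert y S) (by
        rw [mem_filter]
        refine ⟨mem_univ _, ?_⟩
        intro a ha b hb
        rw [mem_insert] at ha hb
        rcases ha with rfl | ha <;> rcases hb with rfl | hb
        · exact hirr _
        · exact fun h => h1 b hb (hE _ _ h)
        · exact h1 a ha
        · exact hS.2 a ha b hb)
      rw [card_insert_of_notMem hy] at h2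
      omega
  calc Fintype.card V = (univ : Finset V).card := (card_univ).symm
    _ ≤ _ := card_le_card hcov
    _ ≤ S.card * (t + 1) := by
        apply card_biUnion_le_card_mul
        intro x _
        refine (card_insert_le _ _).trans ?_
        have h3 := ht x
        rw [Set.ncard_eq_toFinset_card'] at h3
        have h4 : {y | E x y}.toFinset = univ.filter (fun y => E x y) := by
          ext y
          simp
        rw [h4] at h3
        omega
    _ = _ := by ring

end Pool.Agent.H86.Codeg
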